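import Mathlib
import Pool.Agent.Q82.PAGrp

/-!
# MP_6f54aa_an, Q1: negative answer

There are a space `X` (discrete, of bounded geometry, strongly discrete) and a nonempty open
invariant subset `U` of its Stone-Cech compactification whose geometric and ghostly ideals agree,
although the restriction of the coarse groupoid to the complement of `U` is not topologically
amenable.  The definitions are in `Pool/Agent/Q82/PADefs.lean`.
-/

namespace Pool.Agent.Results.MP_6f54aa_an.GhostlyEqualsGeometric

open Pool.Agent.Q82.PA

/-- **Q1 is false**: equality of the geometric and the ghostly ideal of a nonempty invariant open
set does not imply partial property A towards its complement. -/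
theorem result : ∃ (X : Type) (_ : MetricSpace X) (U : Set (Ultrafilter X)), IsCounterexample X U :=
  ⟨X, inferInstance, U, counterexample⟩

end Pool.Agent.Results.MP_6f54aa_an.GhostlyEqualsGeometric
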